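import Pool.Agent.H25.MF.Targets
import Pool.Agent.Ratios.GammaIntegral

/-!
Row CM of `mf_modules` (Mellin transform of `1 - cos`).
-/

set_option autoImplicit false

open Complex MeasureTheory Filter Topology

namespace Pool.Agent.H86.MF

open Pool.Agent.H25.MF Pool.Agent.Ratios

theorem exp_sub_le {x y : ℂ} {M : ℝ} (hx : x.re ≤ M) (hy : y.re ≤ M) :
    ‖cexp x - cexp y‖ ≤ Real.exp M * ‖x - y‖ := by
  have hs : Convex ℝ {z : ℂ | z.re ≤ M} := convex_halfSpace_re_le M
  refine hs.norm_image_sub_le_of_norm_hasDerivWithin_le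
    (fun z _ => (Complex.hasDerivAt_exp z).hasDerivWithinAt) (fun z hz => ?_) hy hx
  rw [Complex.norm_exp]
  exact Real.exp_le_exp.2 hz

theorem uw_le {a b : ℂ} {c : ℝ} (ha : c ≤ a.re) (hb : c ≤ b.re) {w : ℝ} (hw : 0 < w) :
    ‖cexp (-(a * w)) - cexp (-(b * w))‖ ≤ Real.exp (-(c * w)) * (‖a - b‖ * w) := by
  have h := exp_sub_le (x := -(a * w)) (y := -(b * w)) (M := -(c * w)) (by
    rw [Complex.neg_re, Complex.re_mul_ofReal]
    nlinarith) (by
    rw [Complex.neg_re, Complex.re_mul_ofReal]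
    nlinarith)
  refine h.trans (le_of_eq ?_)
  rw [← norm_neg (-(a * w) - -(b * w)), show -(-(a * (w : ℂ)) - -(b * w)) = (a - b) * w by ring,
    norm_mul, Complex.norm_real, Real.norm_eq_abs, abs_of_pos hw]

theorem meas_cpow (s : ℂ) : ContinuousOn (fun x : ℝ => (x : ℂ) ^ s) (Set.Ioi 0) := by
  intro x hx
  have hx0 : (0 : ℝ) < x := hx
  exact (continuousAt_ofReal_cpow_const _ _ (Or.inr hx0.ne')).continuousWithinAt

theorem int_uv {s a b : ℂ} (hs1 : -1 < s.re) (ha : 0 < a.re) (hb : 0 < b.re) :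
    IntegrableOn (fun w : ℝ => (cexp (-(a * w)) - cexp (-(b * w))) * (w : ℂ) ^ (s - 1))
      (Set.Ioi 0) := by
  set c := min a.re b.re with hc
  have hc0 : 0 < c := lt_min ha hb
  have h1 := integrableOn_rpow_mul_exp (s.re + 1) c (by linarith) hc0
  refine (h1.const_mul ‖a - b‖).mono' ?_ ?_
  · refine ContinuousOn.aestronglyMeasurable ?_ measurableSet_Ioi
    exact (Continuous.continuousOn (by fun_prop)).mul (meas_cpow _)
  · rw [ae_restrict_iff' measurableSet_Ioi]
    filter_upwards with w hw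
    have hw0 : 0 < w := hw
    rw [norm_mul, norm_cpow_eq_rpow_re_of_pos hw0]
    refine (mul_le_mul_of_nonneg_right (uw_le (min_le_left _ _) (min_le_right _ _) hw0)
      (by positivity)).trans (le_of_eq ?_)
    have e : w ^ (s.re + 1 - 1) = w * w ^ (s - 1).re := by
      have h := Real.rpow_add_one hw0.ne' (s.re - 1)
      rw [Complex.sub_re, Complex.one_re, show s.re + 1 - 1 = s.re - 1 + 1 by ring, h]
      ring
    rw [e]
    ring

theorem dexp (a : ℂ) (w : ℝ) :
    HasDerivAt (fun w : ℝ => cexp (-(a * w))) (-a * cexp (-(a * w))) w := by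
  have h1 : HasDerivAt (fun w : ℝ => (w : ℂ)) 1 w := Complex.ofRealCLM.hasDerivAt
  have h2 : HasDerivAt (fun w : ℝ => -(a * (w : ℂ))) (-(a * 1)) w := (h1.const_mul a).fun_neg
  have h3 := h2.cexp
  convert h3 using 1
  ring

theorem int_ab {s a b : ℂ} (hs1 : -1 < s.re) (hs0 : s.re < 0) (ha : 0 < a.re) (hb : 0 < b.re) :
    ∫ w in Set.Ioi (0 : ℝ), (cexp (-(a * w)) - cexp (-(b * w))) * (w : ℂ) ^ (s - 1) =
      Complex.Gamma s * ((1 / a) ^ s - (1 / b) ^ s) := by
  have hsne : s ≠ 0 := by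
    intro h
    rw [h] at hs0
    simp at hs0
  have hane : a ≠ 0 := by
    intro h
    rw [h] at ha
    simp at ha
  have hbne : b ≠ 0 := by
    intro h
    rw [h] at hb
    simp at hb
  set c := min a.re b.re with hc
  have hc0 : 0 < c := lt_min ha hb
  have hs1' : 0 < (s + 1).re := by
    rw [Complex.add_re, Complex.one_re]
    linarith
  set u : ℝ → ℂ := fun w => cexp (-(a * w)) - cexp (-(b * w)) with hu
  set u' : ℝ → ℂ := fun w => -a * cexp (-(a * w)) + b * cexp (-(b * w)) with hu'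
  set v : ℝ → ℂ := fun w => (w : ℂ) ^ s / s with hv
  set v' : ℝ → ℂ := fun w => (w : ℂ) ^ (s - 1) with hv'
  have i1 : IntegrableOn (fun w : ℝ => (w : ℂ) ^ (s + 1 - 1) * cexp (-(a * w))) (Set.Ioi 0) :=
    integrableOn_cpow_mul_exp (s + 1) a hs1' ha
  have i2 : IntegrableOn (fun w : ℝ => (w : ℂ) ^ (s + 1 - 1) * cexp (-(b * w))) (Set.Ioi 0) :=
    integrableOn_cpow_mul_exp (s + 1) b hs1' hb
  have e1 : ∀ w : ℝ, u' w * v w = (-a / s) * ((w : ℂ) ^ (s + 1 - 1) * cexp (-(a * w))) +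
      (b / s) * ((w : ℂ) ^ (s + 1 - 1) * cexp (-(b * w))) := by
    intro w
    simp only [hu', hv, add_sub_cancel_right]
    ring
  have bd : ∀ w : ℝ, 0 < w → ‖(u * v) w‖ ≤
      ‖a - b‖ / ‖s‖ * (w ^ (s.re + 1) * Real.exp (-c * w)) := by
    intro w hw
    simp only [Pi.mul_apply, hu, hv]
    rw [norm_mul, norm_div, norm_cpow_eq_rpow_re_of_pos hw]
    have e : w ^ (s.re + 1) = w ^ s.re * w := Real.rpow_add_one hw.ne' _
    rw [e]
    have hsn : 0 < ‖s‖ := norm_pos_iff.2 hsne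
    calc _ ≤ Real.exp (-(c * w)) * (‖a - b‖ * w) * (w ^ s.re / ‖s‖) :=
          mul_le_mul_of_nonneg_right (uw_le (min_le_left _ _) (min_le_right _ _) hw)
            (by positivity)
      _ = _ := by
          rw [neg_mul]
          ring
  have main := integral_Ioi_mul_deriv_eq_deriv_mul (a := (0 : ℝ)) (a' := (0 : ℂ)) (b' := (0 : ℂ))
    (u := u) (v := v) (u' := u') (v' := v') ?_ ?_ ?_ ?_ ?_ ?_
  · have e2 : ∫ w in Set.Ioi (0 : ℝ), u w * v' w =
        ∫ w in Set.Ioi (0 : ℝ), (cexp (-(a * w)) - cexp (-(b * w))) * (w : ℂ) ^ (s - 1) := rfl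
    rw [← e2, main]
    simp_rw [e1]
    rw [integral_add (i1.const_mul _) (i2.const_mul _), integral_const_mul, integral_const_mul,
      integral_cpow_mul_exp_neg_mul_complex _ _ hs1' ha,
      integral_cpow_mul_exp_neg_mul_complex _ _ hs1' hb, Complex.Gamma_add_one s hsne,
      Complex.cpow_add _ _ (one_div_ne_zero hane), Complex.cpow_add _ _ (one_div_ne_zero hbne),
      Complex.cpow_one, Complex.cpow_one]
    field_simp
    ring
  · intro w _
    simp only [hu, hu']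
    have d1 := dexp a w
    have d2 := dexp b w
    have d3 := d1.fun_sub d2
    have e9 : -a * cexp (-(a * w)) + b * cexp (-(b * w)) =
        -a * cexp (-(a * w)) - -b * cexp (-(b * w)) := by ring
    rw [e9]
    exact d3
  · intro w hw
    have hw0 : (0 : ℝ) < w := hw
    have hne : s - 1 ≠ -1 := fun h => hsne (by linear_combination h)
    have := hasDerivAt_ofReal_cpow_const' hw0.ne' hne
    simpa only [sub_add_cancel] using this
  · exact int_uv hs1 ha hb
  · have e3 : u' * v = fun w : ℝ => (-a / s) * ((w : ℂ) ^ (s + 1 - 1) * cexp (-(a * w))) +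
      (b / s) * ((w : ℂ) ^ (s + 1 - 1) * cexp (-(b * w))) := funext e1
    rw [e3]
    exact (i1.const_mul _).add (i2.const_mul _)
  · have t1 : Tendsto (fun w : ℝ => ‖a - b‖ / ‖s‖ * (w ^ (s.re + 1) * Real.exp (-c * w)))
        (𝓝[>] 0) (𝓝 (‖a - b‖ / ‖s‖ * ((0 : ℝ) ^ (s.re + 1) * Real.exp (-c * 0)))) := by
      refine Tendsto.mono_left ?_ nhdsWithin_le_nhds
      refine Tendsto.const_mul _ ?_
      refine Tendsto.mul ?_ ?_
      · exact (Real.continuousAt_rpow_const 0 _ (Or.inr (by linarith))).tendsto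
      · exact (by fun_prop : Continuous fun w : ℝ => Real.exp (-c * w)).tendsto 0
    rw [Real.zero_rpow (by linarith), zero_mul, mul_zero] at t1
    refine squeeze_zero_norm' ?_ t1
    filter_upwards [self_mem_nhdsWithin] with w hw
    exact bd w hw
  · have t1 := (tendsto_rpow_mul_exp_neg_mul_atTop_nhds_zero (s.re + 1) c hc0).const_mul
      (‖a - b‖ / ‖s‖)
    rw [mul_zero] at t1
    refine squeeze_zero_norm' ?_ t1
    filter_upwards [eventually_gt_atTop 0] with w hw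
    exact bd w hw

/-- the dominating function -/
noncomputable def dom (σ : ℝ) (w : ℝ) : ℝ :=
  (Set.Ioc (0 : ℝ) 1).indicator (fun w => w ^ σ) w +
    (Set.Ioi (1 : ℝ)).indicator (fun w => 2 * w ^ (σ - 1)) w

theorem dom_int {σ : ℝ} (h1 : -1 < σ) (h0 : σ < 0) : Integrable (dom σ) := by
  refine Integrable.add ?_ ?_
  · refine IntegrableOn.integrable_indicator ?_ measurableSet_Ioc
    rw [← intervalIntegrable_iff_integrableOn_Ioc_of_le zero_le_one]
    exact intervalIntegral.intervalIntegrable_rpow' h1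
  · refine IntegrableOn.integrable_indicator ?_ measurableSet_Ioi
    exact (integrableOn_Ioi_rpow_of_lt (by linarith) one_pos).const_mul 2

theorem dom_ge {s : ℂ} {κ ε : ℝ} (hκ : |κ| = 1) (hε : 0 ≤ ε) {w : ℝ} (hw : 0 < w) :
    ‖(cexp (-((ε : ℂ) * w)) - cexp (-(((ε : ℂ) + κ * I) * w))) * (w : ℂ) ^ (s - 1)‖ ≤
      dom s.re w := by
  have e1 : cexp (-((ε : ℂ) * w)) - cexp (-(((ε : ℂ) + κ * I) * w)) =
      cexp ((-(ε * w) : ℝ) : ℂ) * (cexp 0 - cexp (((-κ * w : ℝ) : ℂ) * I)) := by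
    rw [mul_sub, ← Complex.exp_add, ← Complex.exp_add]
    congr 2
    · push_cast
      ring
    · push_cast
      ring
  have h1 : ‖cexp ((-(ε * w) : ℝ) : ℂ)‖ ≤ 1 := by
    rw [Complex.norm_exp, Complex.ofReal_re]
    exact Real.exp_le_one_iff.2 (by nlinarith)
  have h2 : ‖cexp 0 - cexp (((-κ * w : ℝ) : ℂ) * I)‖ ≤ w := by
    refine (exp_sub_le (M := 0) (by simp) (by simp)).trans (le_of_eq ?_)
    rw [Real.exp_zero, one_mul, zero_sub, norm_neg, norm_mul, Complex.norm_I, mul_one,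
      Complex.norm_real, Real.norm_eq_abs, abs_mul, abs_neg, hκ, one_mul, abs_of_pos hw]
  have h3 : ‖cexp 0 - cexp (((-κ * w : ℝ) : ℂ) * I)‖ ≤ 2 := by
    refine (norm_sub_le _ _).trans ?_
    rw [Complex.norm_exp_ofReal_mul_I, Complex.exp_zero, norm_one]
    norm_num
  rw [norm_mul, e1, norm_mul, norm_cpow_eq_rpow_re_of_pos hw]
  have hp : 0 < w ^ (s - 1).re := Real.rpow_pos_of_pos hw _
  have e2 : (s - 1).re = s.re - 1 := by simp
  unfold dom
  by_cases hw1 : w ≤ 1
  · rw [Set.indicator_of_mem (show w ∈ Set.Ioc (0 : ℝ) 1 from ⟨hw, hw1⟩),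
      Set.indicator_of_notMem (show w ∉ Set.Ioi (1 : ℝ) from fun h => absurd h (not_lt.2 hw1)),
      add_zero]
    calc _ ≤ 1 * w * w ^ (s - 1).re := by
          refine mul_le_mul_of_nonneg_right ?_ hp.le
          exact mul_le_mul h1 h2 (norm_nonneg _) zero_le_one
      _ = w ^ s.re := by
          rw [one_mul, e2]
          have := Real.rpow_add_one hw.ne' (s.re - 1)
          rw [sub_add_cancel] at this
          rw [this]
          ring
  · push Not at hw1
    rw [Set.indicator_of_notMem (show w ∉ Set.Ioc (0 : ℝ) 1 from fun h => absurd h.2 (not_le.2 hw1)),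
      Set.indicator_of_mem (show w ∈ Set.Ioi (1 : ℝ) from hw1), zero_add, ← e2]
    refine mul_le_mul_of_nonneg_right ?_ hp.le
    calc _ ≤ 1 * 2 := mul_le_mul h1 h3 (norm_nonneg _) zero_le_one
      _ = 2 := one_mul _

theorem dom_ge0 {s : ℂ} {κ : ℝ} (hκ : |κ| = 1) {w : ℝ} (hw : 0 < w) :
    ‖(1 - cexp (-(κ * I * w))) * (w : ℂ) ^ (s - 1)‖ ≤ dom s.re w := by
  have h := dom_ge (s := s) hκ le_rfl hw
  simpa using h

theorem int_one {s : ℂ} (hs1 : -1 < s.re) (hs0 : s.re < 0) {κ : ℝ} (hκ : |κ| = 1) :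
    IntegrableOn (fun w : ℝ => (1 - cexp (-(κ * I * w))) * (w : ℂ) ^ (s - 1)) (Set.Ioi 0) ∧
    ∫ w in Set.Ioi (0 : ℝ), (1 - cexp (-(κ * I * w))) * (w : ℂ) ^ (s - 1) =
      -(Complex.Gamma s * (-(κ * I)) ^ s) := by
  have hκ0 : κ ≠ 0 := by
    intro h
    rw [h] at hκ
    simp at hκ
  have hκ2 : κ * κ = 1 := by
    rw [← abs_mul_abs_self, hκ, one_mul]
  have i0 : IntegrableOn (fun w : ℝ => (1 - cexp (-(κ * I * w))) * (w : ℂ) ^ (s - 1))
      (Set.Ioi 0) := by
    refine (dom_int hs1 hs0).integrableOn.mono' ?_ ?_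
    · refine ContinuousOn.aestronglyMeasurable ?_ measurableSet_Ioi
      exact (Continuous.continuousOn (by fun_prop)).mul (meas_cpow _)
    · rw [ae_restrict_iff' measurableSet_Ioi]
      filter_upwards with w hw
      exact dom_ge0 hκ hw
  refine ⟨i0, ?_⟩
  have h0 : ∀ᶠ ε : ℝ in 𝓝[>] 0, ε ∈ Set.Ioi (0 : ℝ) := self_mem_nhdsWithin
  have t1 : Tendsto (fun ε : ℝ => ∫ w in Set.Ioi (0 : ℝ),
      (cexp (-((ε : ℂ) * w)) - cexp (-(((ε : ℂ) + κ * I) * w))) * (w : ℂ) ^ (s - 1)) (𝓝[>] 0)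
      (𝓝 (∫ w in Set.Ioi (0 : ℝ), (1 - cexp (-(κ * I * w))) * (w : ℂ) ^ (s - 1))) := by
    refine tendsto_integral_filter_of_dominated_convergence (dom s.re) ?_ ?_ ?_ ?_
    · refine Eventually.of_forall fun ε => ?_
      refine ContinuousOn.aestronglyMeasurable ?_ measurableSet_Ioi
      exact (Continuous.continuousOn (by fun_prop)).mul (meas_cpow _)
    · filter_upwards [h0] with ε hε
      rw [ae_restrict_iff' measurableSet_Ioi]
      filter_upwards with w hw
      exact dom_ge hκ (le_of_lt hε) hw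
    · exact (dom_int hs1 hs0).integrableOn
    · refine Eventually.of_forall fun w => ?_
      refine Tendsto.mul_const _ ?_
      have c : Continuous fun ε : ℝ => cexp (-((ε : ℂ) * w)) - cexp (-(((ε : ℂ) + κ * I) * w)) := by
        fun_prop
      have := (c.tendsto 0).mono_left (nhdsWithin_le_nhds (s := Set.Ioi (0 : ℝ)))
      simpa using this
  have t2 : Tendsto (fun ε : ℝ => Complex.Gamma s * ((1 / (ε : ℂ)) ^ s -
      (1 / ((ε : ℂ) + κ * I)) ^ s)) (𝓝[>] 0)
      (𝓝 (Complex.Gamma s * (0 - (-(κ * I)) ^ s))) := by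
    refine Tendsto.const_mul _ (Tendsto.sub ?_ ?_)
    · have a1 : Tendsto (fun ε : ℝ => ε ^ (-s.re)) (𝓝[>] 0) (𝓝 ((0 : ℝ) ^ (-s.re))) :=
        (Real.continuousAt_rpow_const 0 _ (Or.inr (by linarith))).tendsto.mono_left
          nhdsWithin_le_nhds
      rw [Real.zero_rpow (by linarith)] at a1
      refine squeeze_zero_norm' ?_ a1
      filter_upwards [h0] with ε hε
      have hε0 : (0 : ℝ) < ε := hε
      rw [← Complex.ofReal_one, ← Complex.ofReal_div,
        norm_cpow_eq_rpow_re_of_pos (by positivity), one_div, Real.inv_rpow hε0.le,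
        Real.rpow_neg hε0.le]
    · have a2 : (1 : ℂ) / (((0 : ℝ) : ℂ) + κ * I) = -(κ * I) := by
        rw [Complex.ofReal_zero, zero_add]
        have hne : (κ : ℂ) * I ≠ 0 := mul_ne_zero (by exact_mod_cast hκ0) I_ne_zero
        have hκ2' : (κ : ℂ) * κ = 1 := by exact_mod_cast hκ2
        rw [div_eq_iff hne]
        calc (1 : ℂ) = (κ : ℂ) * κ * 1 := by rw [hκ2', one_mul]
          _ = _ := by
            rw [show (1 : ℂ) = -(I * I) by rw [I_mul_I, neg_neg]]
            ring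
      have a3 : ContinuousAt (fun ε : ℝ => (1 / ((ε : ℂ) + κ * I)) ^ s) 0 := by
        have hne : ((0 : ℝ) : ℂ) + κ * I ≠ 0 := by
          rw [Complex.ofReal_zero, zero_add]
          exact mul_ne_zero (by exact_mod_cast hκ0) I_ne_zero
        have b1 : ContinuousAt (fun ε : ℝ => 1 / ((ε : ℂ) + κ * I)) 0 := by
          refine ContinuousAt.div continuousAt_const (by fun_prop) hne
        have b2 : ContinuousAt (fun z : ℂ => z ^ s) (1 / (((0 : ℝ) : ℂ) + κ * I)) := by
          refine continuousAt_cpow_const ?_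
          rw [a2]
          right
          simp [hκ0]
        exact ContinuousAt.comp (f := fun ε : ℝ => 1 / ((ε : ℂ) + κ * I)) b2 b1
      have a4 := a3.tendsto.mono_left (nhdsWithin_le_nhds (s := Set.Ioi (0 : ℝ)))
      rw [a2] at a4
      exact a4
  have t3 : Tendsto (fun ε : ℝ => ∫ w in Set.Ioi (0 : ℝ),
      (cexp (-((ε : ℂ) * w)) - cexp (-(((ε : ℂ) + κ * I) * w))) * (w : ℂ) ^ (s - 1)) (𝓝[>] 0)
      (𝓝 (Complex.Gamma s * (0 - (-(κ * I)) ^ s))) := by
    refine t2.congr' ?_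
    filter_upwards [h0] with ε hε
    have hε0 : (0 : ℝ) < ε := hε
    exact (int_ab hs1 hs0 (by simpa using hε0) (by simpa using hε0)).symm
  rw [tendsto_nhds_unique t1 t3]
  ring

theorem pf_CM : T_CM := by
  intro s hs1 hs0
  obtain ⟨i1, j1⟩ := int_one hs1 hs0 (κ := 1) (by simp)
  obtain ⟨i2, j2⟩ := int_one hs1 hs0 (κ := -1) (by simp)
  have e : ∀ w : ℝ, ((1 - Real.cos w : ℝ) : ℂ) * (w : ℂ) ^ (s - 1) =
      (1 / 2) * ((1 - cexp (-(((1 : ℝ) : ℂ) * I * w))) * (w : ℂ) ^ (s - 1)) +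
      (1 / 2) * ((1 - cexp (-(((-1 : ℝ) : ℂ) * I * w))) * (w : ℂ) ^ (s - 1)) := by
    intro w
    rw [Complex.ofReal_sub, Complex.ofReal_one, Complex.ofReal_cos, Complex.cos]
    have e1 : -(((-1 : ℝ) : ℂ) * I * w) = (w : ℂ) * I := by
      push_cast
      ring
    have e2 : -((1 : ℂ) * I * w) = -(w : ℂ) * I := by ring
    rw [e1, e2]
    ring
  have e' : (fun w : ℝ => ((1 - Real.cos w : ℝ) : ℂ) * (w : ℂ) ^ (s - 1)) = fun w : ℝ =>
      (1 / 2) * ((1 - cexp (-(((1 : ℝ) : ℂ) * I * w))) * (w : ℂ) ^ (s - 1)) +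
      (1 / 2) * ((1 - cexp (-(((-1 : ℝ) : ℂ) * I * w))) * (w : ℂ) ^ (s - 1)) := funext e
  refine ⟨?_, ?_⟩
  · rw [e']
    exact (i1.const_mul _).add (i2.const_mul _)
  · rw [e', integral_add (i1.const_mul _) (i2.const_mul _), integral_const_mul,
      integral_const_mul, j1, j2]
    have l1 : (-(((1 : ℝ) : ℂ) * I)) ^ s = cexp (-(Real.pi * s / 2) * I) := by
      rw [Complex.ofReal_one, one_mul, Complex.cpow_def_of_ne_zero (neg_ne_zero.2 I_ne_zero),
        Complex.log_neg_I]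
      congr 1
      ring
    have l2 : (-(((-1 : ℝ) : ℂ) * I)) ^ s = cexp ((Real.pi * s / 2) * I) := by
      rw [Complex.ofReal_neg, Complex.ofReal_one, neg_mul, one_mul, neg_neg,
        Complex.cpow_def_of_ne_zero I_ne_zero, Complex.log_I]
      congr 1
      ring
    rw [l1, l2, Complex.cos]
    ring

end Pool.Agent.H86.MF
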