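import Pool.Agent.H25.MF.Targets

/-!
Row TR of `mf_modules` (limit of the right side).
-/

set_option autoImplicit false

open Complex MeasureTheory Filter Topology

namespace Pool.Agent.H86.MF

open Pool.Agent.H25.MF

/-- the Gaussian factor -/
noncomputable def Wg (τ δ t : ℝ) : ℂ := cexp (τ ^ 2 * ((δ : ℂ) + t * I) ^ 2 / 2)

theorem Wg_norm (τ : ℝ) {δ : ℝ} (hδ : |δ| ≤ 1) (t : ℝ) : ‖Wg τ δ t‖ ≤ Real.exp (τ ^ 2 / 2) := by
  unfold Wg
  rw [Complex.norm_exp]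
  apply Real.exp_le_exp.2
  have e : ((τ : ℂ) ^ 2 * ((δ : ℂ) + t * I) ^ 2 / 2).re = τ ^ 2 * (δ ^ 2 - t ^ 2) / 2 := by
    have : (τ : ℂ) ^ 2 * ((δ : ℂ) + t * I) ^ 2 / 2 =
        ((τ ^ 2 * (δ ^ 2 - t ^ 2) / 2 : ℝ) : ℂ) + ((τ ^ 2 * (δ * t) : ℝ) : ℂ) * I := by
      push_cast
      ring_nf
      rw [I_sq]
      ring
    rw [this]
    simp only [Complex.add_re, Complex.ofReal_re, Complex.mul_re, Complex.I_re, Complex.ofReal_im,
      Complex.I_im]
    ring
  rw [e]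
  have h1 : δ ^ 2 ≤ 1 := by
    rw [← sq_abs]
    nlinarith [abs_nonneg δ]
  have h2 : 0 ≤ τ ^ 2 := sq_nonneg τ
  nlinarith [mul_nonneg h2 (sq_nonneg t), mul_le_mul_of_nonneg_left h1 h2]

theorem Wg_cont (τ : ℝ) : Continuous (Function.uncurry (Wg τ)) := by
  unfold Function.uncurry Wg
  fun_prop

theorem Wg_c1 (τ δ : ℝ) : Continuous fun t : ℝ => Wg τ δ t := by
  unfold Wg
  fun_prop

theorem Wg_c2 (τ t : ℝ) : Continuous fun δ : ℝ => Wg τ δ t := by
  unfold Wg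
  fun_prop

theorem Wg_t1 (τ t : ℝ) : Tendsto (fun δ : ℝ => Wg τ δ t) (𝓝[>] 0) (𝓝 (Wg τ 0 t)) :=
  ((Wg_c2 τ t).tendsto 0).mono_left nhdsWithin_le_nhds

theorem Wg_t2 (τ t : ℝ) : Tendsto (fun δ : ℝ => Wg τ (-δ) t) (𝓝[>] 0) (𝓝 (Wg τ 0 t)) := by
  have c : Continuous fun δ : ℝ => Wg τ (-δ) t := (Wg_c2 τ t).comp continuous_neg
  have h := (c.tendsto 0).mono_left (nhdsWithin_le_nhds (s := Set.Ioi (0 : ℝ)))
  rwa [neg_zero] at h

theorem lt1 (t : ℝ) : Tendsto (fun δ : ℝ => (δ : ℂ) + t * I) (𝓝[>] 0) (𝓝 ((t : ℂ) * I)) := by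
  have c : Continuous fun δ : ℝ => (δ : ℂ) + t * I := by fun_prop
  have h := (c.tendsto 0).mono_left (nhdsWithin_le_nhds (s := Set.Ioi (0 : ℝ)))
  rwa [Complex.ofReal_zero, zero_add] at h

theorem lt2 (t : ℝ) : Tendsto (fun δ : ℝ => ((-δ : ℝ) : ℂ) + t * I) (𝓝[>] 0)
    (𝓝 ((t : ℂ) * I)) := by
  have c : Continuous fun δ : ℝ => ((-δ : ℝ) : ℂ) + t * I := by fun_prop
  have h := (c.tendsto 0).mono_left (nhdsWithin_le_nhds (s := Set.Ioi (0 : ℝ)))
  rwa [neg_zero, Complex.ofReal_zero, zero_add] at h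

theorem Wg_sub (τ : ℝ) {δ : ℝ} (hδ : |δ| ≤ 1) (t : ℝ) :
    ‖Wg τ δ t - Wg τ (-δ) t‖ ≤ 2 * Real.exp (τ ^ 2 / 2) * (τ ^ 2 * |δ| * |t|) := by
  have e : Wg τ δ t - Wg τ (-δ) t =
      cexp ((τ ^ 2 * (δ ^ 2 - t ^ 2) / 2 : ℝ) : ℂ) * (2 * I * ((Real.sin (τ ^ 2 * δ * t) : ℝ) : ℂ)) := by
    unfold Wg
    have e1 : (τ : ℂ) ^ 2 * ((δ : ℂ) + t * I) ^ 2 / 2 =
        ((τ ^ 2 * (δ ^ 2 - t ^ 2) / 2 : ℝ) : ℂ) + ((τ ^ 2 * δ * t : ℝ) : ℂ) * I := by
      push_cast
      ring_nf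
      rw [I_sq]
      ring
    have e2 : (τ : ℂ) ^ 2 * (((-δ : ℝ) : ℂ) + t * I) ^ 2 / 2 =
        ((τ ^ 2 * (δ ^ 2 - t ^ 2) / 2 : ℝ) : ℂ) + -(((τ ^ 2 * δ * t : ℝ) : ℂ)) * I := by
      push_cast
      ring_nf
      rw [I_sq]
      ring
    rw [e1, e2, Complex.exp_add, Complex.exp_add, ← mul_sub, Complex.ofReal_sin]
    congr 1
    rw [Complex.sin]
    ring_nf
    rw [I_sq]
    ring
  rw [e, norm_mul, Complex.norm_exp, Complex.ofReal_re, norm_mul, norm_mul, Complex.norm_I,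
    Complex.norm_real, Real.norm_eq_abs]
  have h1 : |Real.sin (τ ^ 2 * δ * t)| ≤ τ ^ 2 * |δ| * |t| := by
    refine (Real.abs_sin_le_abs (x := τ ^ 2 * δ * t)).trans ?_
    rw [abs_mul, abs_mul, abs_of_nonneg (sq_nonneg τ)]
  have h2 : Real.exp (τ ^ 2 * (δ ^ 2 - t ^ 2) / 2) ≤ Real.exp (τ ^ 2 / 2) := by
    apply Real.exp_le_exp.2
    have h1 : δ ^ 2 ≤ 1 := by
      rw [← sq_abs]
      nlinarith [abs_nonneg δ]
    have h2 : 0 ≤ τ ^ 2 := sq_nonneg τ
    nlinarith [mul_nonneg h2 (sq_nonneg t), mul_le_mul_of_nonneg_left h1 h2]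
  have h3 : ‖(2 : ℂ)‖ = 2 := by norm_num
  rw [h3]
  calc Real.exp (τ ^ 2 * (δ ^ 2 - t ^ 2) / 2) * (2 * 1 * |Real.sin (τ ^ 2 * δ * t)|) ≤
      Real.exp (τ ^ 2 / 2) * (2 * 1 * (τ ^ 2 * |δ| * |t|)) := by
        apply mul_le_mul h2 (by linarith) (by positivity) (Real.exp_pos _).le
    _ = _ := by ring

/-- the Poisson kernel -/
theorem pois {f : ℝ → ℝ → ℂ} {B : ℝ} (hc : Continuous (Function.uncurry f))
    (hB : ∀ δ t : ℝ, |δ| ≤ 1 → ‖f δ t‖ ≤ B) (γ : ℝ) :
    Tendsto (fun δ : ℝ => ∫ t : ℝ, ((2 * δ / (δ ^ 2 + (t - γ) ^ 2) : ℝ) : ℂ) * f δ t) (𝓝[>] 0)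
      (𝓝 (2 * Real.pi * f 0 γ)) := by
  have h0 : ∀ᶠ δ : ℝ in 𝓝[>] 0, δ ∈ Set.Ioo (0 : ℝ) 1 := Ioo_mem_nhdsGT one_pos
  have h1 : ∀ᶠ δ : ℝ in 𝓝[>] 0, ∫ x : ℝ, ((2 * (1 + x ^ 2)⁻¹ : ℝ) : ℂ) * f δ (δ * x + γ) =
      ∫ t : ℝ, ((2 * δ / (δ ^ 2 + (t - γ) ^ 2) : ℝ) : ℂ) * f δ t := by
    filter_upwards [h0] with δ hδ
    set g : ℝ → ℂ := fun t => ((2 * δ / (δ ^ 2 + (t - γ) ^ 2) : ℝ) : ℂ) * f δ t with hg
    have a1 : ∫ t, g t = ∫ t, g (t + γ) := (integral_add_right_eq_self g γ).symm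
    have a2 := Measure.integral_comp_mul_left (fun t => g (t + γ)) δ
    rw [a1]
    have a3 : ∫ t, g (t + γ) = (δ : ℝ) • ∫ x, g (δ * x + γ) := by
      rw [a2, abs_of_pos (inv_pos.2 hδ.1), smul_smul, mul_inv_cancel₀ hδ.1.ne', one_smul]
    rw [a3, ← integral_smul]
    refine integral_congr_ae (Eventually.of_forall fun x => ?_)
    simp only [hg, Complex.real_smul]
    rw [← mul_assoc, ← Complex.ofReal_mul]
    congr 2
    have hδ0 : δ ≠ 0 := hδ.1.ne'
    have hx : 0 < 1 + x ^ 2 := by positivity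
    have hx2 : δ ^ 2 + (δ * x + γ - γ) ^ 2 = δ ^ 2 * (1 + x ^ 2) := by ring
    rw [hx2]
    field_simp
  refine Tendsto.congr' h1 ?_
  have h2 : (2 : ℂ) * Real.pi * f 0 γ = ∫ x : ℝ, ((2 * (1 + x ^ 2)⁻¹ : ℝ) : ℂ) * f 0 γ := by
    rw [integral_mul_const, integral_complex_ofReal, integral_const_mul,
      integral_univ_inv_one_add_sq]
    push_cast
    ring
  rw [h2]
  refine tendsto_integral_filter_of_dominated_convergence
    (fun x => 2 * (1 + x ^ 2)⁻¹ * B) ?_ ?_ ?_ ?_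
  · refine Eventually.of_forall fun δ => ?_
    refine Continuous.aestronglyMeasurable ?_
    have c1 : Continuous fun x : ℝ => ((2 * (1 + x ^ 2)⁻¹ : ℝ) : ℂ) := by
      refine Complex.continuous_ofReal.comp (continuous_const.mul ?_)
      exact Continuous.inv₀ (by fun_prop) fun x => by positivity
    have c2 : Continuous fun x : ℝ => f δ (δ * x + γ) :=
      hc.comp (f := fun x : ℝ => ((δ, δ * x + γ) : ℝ × ℝ)) (by fun_prop)
    exact c1.mul c2
  · filter_upwards [h0] with δ hδ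
    refine Eventually.of_forall fun x => ?_
    rw [norm_mul, Complex.norm_real, Real.norm_eq_abs, abs_of_nonneg (by positivity)]
    exact mul_le_mul_of_nonneg_left (hB _ _ (abs_le.2 ⟨by linarith [hδ.1], hδ.2.le⟩))
      (by positivity)
  · exact (integrable_inv_one_add_sq.const_mul 2).mul_const B
  · refine Eventually.of_forall fun x => ?_
    refine Tendsto.const_mul _ ?_
    have c2 : Continuous fun δ : ℝ => f δ (δ * x + γ) :=
      hc.comp (f := fun δ : ℝ => ((δ, δ * x + γ) : ℝ × ℝ)) (by fun_prop)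
    have c3 := c2.tendsto 0
    simp only [zero_mul, zero_add] at c3
    exact c3.mono_left nhdsWithin_le_nhds

theorem kbd {k : ℝ → ℂ} {T : ℝ} (hk : Continuous k) (hs : ∀ t, T ≤ |t| → k t = 0) :
    (∃ B : ℝ, ∀ t, ‖k t‖ ≤ B) ∧ HasCompactSupport k := by
  have h1 : HasCompactSupport k := by
    refine HasCompactSupport.intro (isCompact_Icc (a := -T) (b := T)) fun t ht => ?_
    apply hs
    by_contra h
    push Not at h
    exact ht ⟨(abs_lt.1 h).1.le, (abs_lt.1 h).2.le⟩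
  exact ⟨h1.exists_bound_of_continuous hk, h1⟩

/-- the part with a simple pole -/
theorem pole (τ T : ℝ) {k : ℝ → ℂ} (hk : Continuous k) (hs : ∀ t, T ≤ |t| → k t = 0) (γ : ℝ) :
    Tendsto (fun δ : ℝ => ∫ t : ℝ, (Wg τ δ t / ((δ : ℂ) + t * I - γ * I) -
      Wg τ (-δ) t / (((-δ : ℝ) : ℂ) + t * I - γ * I)) * k t) (𝓝[>] 0)
      (𝓝 (2 * Real.pi * (Wg τ 0 γ * k γ))) := by
  obtain ⟨⟨B, hB⟩, hcs⟩ := kbd hk hs
  have h0 : ∀ᶠ δ : ℝ in 𝓝[>] 0, δ ∈ Set.Ioo (0 : ℝ) 1 := Ioo_mem_nhdsGT one_pos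
  have hB0 : 0 ≤ B := (norm_nonneg _).trans (hB 0)
  have p1 := pois (f := fun δ t => Wg τ δ t * k t) (B := Real.exp (τ ^ 2 / 2) * B)
    ((Wg_cont τ).mul (hk.comp continuous_snd)) (fun δ t hδ => by
      rw [norm_mul]
      exact mul_le_mul (Wg_norm τ hδ t) (hB t) (norm_nonneg _) (Real.exp_pos _).le) γ
  -- the second part
  have ne1 : ∀ (δ t : ℝ), 0 < δ → ((-δ : ℝ) : ℂ) + t * I - γ * I ≠ 0 := by
    intro δ t hδ h
    have := congrArg Complex.re h
    simp at this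
    linarith
  have ne2 : ∀ (δ t : ℝ), 0 < δ → (δ : ℂ) + t * I - γ * I ≠ 0 := by
    intro δ t hδ h
    have := congrArg Complex.re h
    simp at this
    linarith
  have p2 : Tendsto (fun δ : ℝ => ∫ t : ℝ, (Wg τ δ t - Wg τ (-δ) t) /
      (((-δ : ℝ) : ℂ) + t * I - γ * I) * k t) (𝓝[>] 0) (𝓝 (∫ t : ℝ, (0 : ℂ))) := by
    refine tendsto_integral_filter_of_dominated_convergence
      (fun t => 2 * Real.exp (τ ^ 2 / 2) * τ ^ 2 * (|t| * ‖k t‖)) ?_ ?_ ?_ ?_
    · filter_upwards [h0] with δ hδ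
      refine Continuous.aestronglyMeasurable ?_
      have c1 : Continuous fun t : ℝ => Wg τ δ t := Wg_c1 τ δ
      have c2 : Continuous fun t : ℝ => Wg τ (-δ) t := Wg_c1 τ (-δ)
      refine ((c1.sub c2).div (by fun_prop) fun t => ne1 δ t hδ.1).mul hk
    · filter_upwards [h0] with δ hδ
      refine Eventually.of_forall fun t => ?_
      rw [norm_mul, norm_div]
      have a1 := Wg_sub τ (abs_le.2 ⟨by linarith [hδ.1], hδ.2.le⟩) t
      have a2 : δ ≤ ‖((-δ : ℝ) : ℂ) + t * I - γ * I‖ := by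
        have := Complex.abs_re_le_norm (((-δ : ℝ) : ℂ) + t * I - γ * I)
        simp only [Complex.sub_re, Complex.add_re, Complex.ofReal_re, Complex.mul_re,
          Complex.I_re, Complex.ofReal_im, Complex.I_im] at this
        rw [show -δ + (t * 0 - 0 * 1) - (γ * 0 - 0 * 1) = -δ by ring, abs_neg,
          abs_of_pos hδ.1] at this
        exact this
      have a3 : ‖Wg τ δ t - Wg τ (-δ) t‖ / ‖((-δ : ℝ) : ℂ) + t * I - γ * I‖ ≤
          2 * Real.exp (τ ^ 2 / 2) * τ ^ 2 * |t| := by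
        rw [div_le_iff₀ (hδ.1.trans_le a2)]
        refine a1.trans ?_
        rw [abs_of_pos hδ.1]
        calc 2 * Real.exp (τ ^ 2 / 2) * (τ ^ 2 * δ * |t|) =
            2 * Real.exp (τ ^ 2 / 2) * τ ^ 2 * |t| * δ := by ring
          _ ≤ _ := mul_le_mul_of_nonneg_left a2 (by positivity)
      calc _ ≤ 2 * Real.exp (τ ^ 2 / 2) * τ ^ 2 * |t| * ‖k t‖ :=
            mul_le_mul_of_nonneg_right a3 (norm_nonneg _)
        _ = _ := by ring
    · refine Integrable.const_mul ?_ _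
      refine Continuous.integrable_of_hasCompactSupport (by fun_prop) ?_
      exact (hcs.norm).mul_left
    · have hae : ∀ᵐ t : ℝ, t ≠ γ := by
        have : ({γ} : Set ℝ)ᶜ ∈ ae volume := by
          rw [mem_ae_iff, compl_compl]
          exact measure_singleton γ
        exact this
      filter_upwards [hae] with t ht
      have c1 := Wg_t1 τ t
      have c2 := Wg_t2 τ t
      have c3 : Tendsto (fun δ : ℝ => ((-δ : ℝ) : ℂ) + t * I - γ * I) (𝓝[>] 0)
          (𝓝 ((t : ℂ) * I - γ * I)) := (lt2 t).sub_const _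
      have hne : (t : ℂ) * I - γ * I ≠ 0 := by
        rw [← sub_mul]
        refine mul_ne_zero ?_ I_ne_zero
        rw [← Complex.ofReal_sub]
        exact_mod_cast sub_ne_zero.2 ht
      have c4 := ((c1.sub c2).div c3 hne).mul_const (k t)
      rwa [sub_self, zero_div, zero_mul] at c4
  rw [integral_zero] at p2
  have p3 := p1.add p2
  rw [add_zero] at p3
  refine p3.congr' ?_
  filter_upwards [h0] with δ hδ
  have i1 : Integrable fun t : ℝ => ((2 * δ / (δ ^ 2 + (t - γ) ^ 2) : ℝ) : ℂ) *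
      (Wg τ δ t * k t) := by
    refine Continuous.integrable_of_hasCompactSupport ?_ ((hcs.mul_left).mul_left)
    have c1 : Continuous fun t : ℝ => Wg τ δ t := Wg_c1 τ δ
    have c2 : Continuous fun t : ℝ => ((2 * δ / (δ ^ 2 + (t - γ) ^ 2) : ℝ) : ℂ) := by
      refine Complex.continuous_ofReal.comp ?_
      refine Continuous.div (by fun_prop) (by fun_prop) fun t => ?_
      have := hδ.1
      positivity
    exact c2.mul (c1.mul hk)
  have i2 : Integrable fun t : ℝ => (Wg τ δ t - Wg τ (-δ) t) /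
      (((-δ : ℝ) : ℂ) + t * I - γ * I) * k t := by
    refine Continuous.integrable_of_hasCompactSupport ?_ hcs.mul_left
    have c1 : Continuous fun t : ℝ => Wg τ δ t := Wg_c1 τ δ
    have c2 : Continuous fun t : ℝ => Wg τ (-δ) t := Wg_c1 τ (-δ)
    exact ((c1.sub c2).div (by fun_prop) fun t => ne1 δ t hδ.1).mul hk
  rw [← integral_add i1 i2]
  refine integral_congr_ae (Eventually.of_forall fun t => ?_)
  have n1 := ne1 δ t hδ.1
  have n2 := ne2 δ t hδ.1
  have e1 : ((2 * δ / (δ ^ 2 + (t - γ) ^ 2) : ℝ) : ℂ) =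
      1 / ((δ : ℂ) + t * I - γ * I) - 1 / (((-δ : ℝ) : ℂ) + t * I - γ * I) := by
    rw [div_sub_div _ _ n2 n1]
    have e2 : ((δ : ℂ) + t * I - γ * I) * (((-δ : ℝ) : ℂ) + t * I - γ * I) =
        -((δ ^ 2 + (t - γ) ^ 2 : ℝ) : ℂ) := by
      push_cast
      ring_nf
      rw [I_sq]
      ring
    rw [e2, Complex.ofReal_div, div_neg, ← neg_div]
    congr 1
    push_cast
    ring
  simp only
  rw [e1]
  ring

theorem pf_TR : T_TR := by
  intro H T hD hL τ Kh hτ hK hs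
  obtain ⟨S, a, δ₀, C, hδ₀, hF, hcont⟩ := hL
  refine ⟨S, fun γ => a γ * Wg τ 0 γ * Kh γ, ?_⟩
  intro v₀
  set k : ℝ → ℂ := fun t => cexp (t * v₀ * I) * Kh t with hk
  have hkc : Continuous k := by
    rw [hk]
    fun_prop
  have hks : ∀ t, T ≤ |t| → k t = 0 := fun t ht => by
    simp only [hk]
    rw [hs t ht, mul_zero]
  obtain ⟨⟨B, hB⟩, hcs⟩ := kbd hkc hks
  have hpi : (2 * Real.pi : ℂ) ≠ 0 := by
    have := Real.pi_ne_zero
    exact mul_ne_zero two_ne_zero (by exact_mod_cast this)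
  set F : ℂ → ℂ := fun z => H z - ∑ γ ∈ S, a γ / (z - γ * I) with hFd
  have h0 : ∀ᶠ δ : ℝ in 𝓝[>] 0, δ ∈ Set.Ioo (0 : ℝ) (min 1 δ₀) :=
    Ioo_mem_nhdsGT (lt_min one_pos hδ₀)
  have hline : ∀ δ : ℝ, 0 < |δ| → |δ| < 1 → Continuous fun t : ℝ => H ((δ : ℂ) + t * I) := by
    intro δ h1 h2
    rw [continuous_iff_continuousAt]
    intro t
    have a1 : ContinuousAt H ((δ : ℂ) + t * I) := by
      refine (hD _ ?_ ?_).continuousAt
      · simpa using h1
      · simpa using h2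
    exact ContinuousAt.comp (f := fun t : ℝ => (δ : ℂ) + t * I) a1 (by fun_prop)
  have hden : ∀ (δ : ℝ) (γ t : ℝ), 0 < |δ| → (δ : ℂ) + t * I - γ * I ≠ 0 := by
    intro δ γ t hδ h
    have := congrArg Complex.re h
    simp at this
    rw [this] at hδ
    simp at hδ
  have hFline : ∀ δ : ℝ, 0 < |δ| → |δ| < 1 → Continuous fun t : ℝ => F ((δ : ℂ) + t * I) := by
    intro δ h1 h2
    refine (hline δ h1 h2).sub (continuous_finsetSum _ fun γ _ => ?_)
    exact Continuous.div continuous_const (by fun_prop) fun t => hden δ γ t h1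
  -- the regular part
  have q1 : Tendsto (fun δ : ℝ => ∫ t : ℝ, (F ((δ : ℂ) + t * I) * Wg τ δ t -
      F (((-δ : ℝ) : ℂ) + t * I) * Wg τ (-δ) t) * k t) (𝓝[>] 0) (𝓝 (∫ t : ℝ, (0 : ℂ))) := by
    refine tendsto_integral_filter_of_dominated_convergence
      (fun t => 2 * (C * Real.exp (τ ^ 2 / 2)) * ‖k t‖) ?_ ?_ ?_ ?_
    · filter_upwards [h0] with δ hδ
      have d1 : 0 < |δ| := abs_pos.2 hδ.1.ne'
      have d2 : |δ| < 1 := by
        rw [abs_of_pos hδ.1]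
        exact hδ.2.trans_le (min_le_left _ _)
      have c1 : Continuous fun t : ℝ => Wg τ δ t := Wg_c1 τ δ
      have c2 : Continuous fun t : ℝ => Wg τ (-δ) t := Wg_c1 τ (-δ)
      refine Continuous.aestronglyMeasurable ?_
      exact (((hFline δ d1 d2).mul c1).sub ((hFline (-δ) (by rwa [abs_neg])
        (by rwa [abs_neg])).mul c2)).mul hkc
    · filter_upwards [h0] with δ hδ
      have d1 : 0 < |δ| := abs_pos.2 hδ.1.ne'
      have d2 : |δ| < 1 := by
        rw [abs_of_pos hδ.1]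
        exact hδ.2.trans_le (min_le_left _ _)
      have d3 : |δ| < δ₀ := by
        rw [abs_of_pos hδ.1]
        exact hδ.2.trans_le (min_le_right _ _)
      refine Eventually.of_forall fun t => ?_
      rw [norm_mul]
      by_cases ht : T ≤ |t|
      · rw [hks t ht]
        simp
      · push Not at ht
        refine mul_le_mul_of_nonneg_right ?_ (norm_nonneg _)
        refine (norm_sub_le _ _).trans ?_
        rw [norm_mul, norm_mul]
        have b1 : ‖F ((δ : ℂ) + t * I)‖ ≤ C := hF _ (by simpa using d1) (by simpa using d3)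
          (by simpa using ht.le)
        have b2 : ‖F (((-δ : ℝ) : ℂ) + t * I)‖ ≤ C := hF _ (by simpa using hδ.1.ne')
          (by simpa using d3) (by simpa using ht.le)
        have hC : 0 ≤ C := (norm_nonneg _).trans b1
        have b3 := mul_le_mul b1 (Wg_norm τ d2.le t) (norm_nonneg _) hC
        have b4 := mul_le_mul b2 (Wg_norm τ (δ := -δ) (by rw [abs_neg]; exact d2.le) t)
          (norm_nonneg _) hC
        linarith
    · exact (hkc.norm.integrable_of_hasCompactSupport hcs.norm).const_mul _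
    · have hae : ∀ᵐ t : ℝ, t ∉ S := by
        have : ((S : Set ℝ))ᶜ ∈ ae (volume : Measure ℝ) := by
          rw [mem_ae_iff, compl_compl]
          exact S.measure_zero volume
        filter_upwards [this] with t ht
        exact fun h => ht h
      filter_upwards [hae] with t ht
      by_cases htT : T ≤ |t|
      · rw [hks t htT]
        simp
      · push Not at htT
        have hFc : ContinuousAt F ((t : ℂ) * I) := by
          refine (hcont t htT.le ht).sub ?_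
          refine tendsto_finsetSum _ fun γ hγ => ?_
          refine ContinuousAt.div continuousAt_const (by fun_prop) ?_
          rw [← sub_mul]
          refine mul_ne_zero ?_ I_ne_zero
          rw [← Complex.ofReal_sub]
          have : t ≠ γ := fun h => ht (h ▸ hγ)
          exact_mod_cast sub_ne_zero.2 this
        have g1 := lt1 t
        have g2 := lt2 t
        have c1 := Wg_t1 τ t
        have c2 := Wg_t2 τ t
        have r1 := (((hFc.tendsto.comp g1).mul c1).sub ((hFc.tendsto.comp g2).mul c2)).mul_const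
          (k t)
        rw [sub_self, zero_mul] at r1
        exact r1
  rw [integral_zero] at q1
  -- the poles
  have q2 : Tendsto (fun δ : ℝ => ∑ γ ∈ S, a γ * ∫ t : ℝ, (Wg τ δ t / ((δ : ℂ) + t * I - γ * I) -
      Wg τ (-δ) t / (((-δ : ℝ) : ℂ) + t * I - γ * I)) * k t) (𝓝[>] 0)
      (𝓝 (∑ γ ∈ S, a γ * (2 * Real.pi * (Wg τ 0 γ * k γ)))) :=
    tendsto_finsetSum _ fun γ _ => (pole τ T hkc hks γ).const_mul _
  have q3 := (q1.add q2).const_mul (2 * Real.pi : ℂ)⁻¹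
  have e0 : (2 * Real.pi : ℂ)⁻¹ * (0 + ∑ γ ∈ S, a γ * (2 * Real.pi * (Wg τ 0 γ * k γ))) =
      ∑ γ ∈ S, a γ * Wg τ 0 γ * Kh γ * cexp (γ * v₀ * I) := by
    rw [zero_add, Finset.mul_sum]
    refine Finset.sum_congr rfl fun γ _ => ?_
    simp only [hk]
    field_simp
  rw [e0] at q3
  refine q3.congr' ?_
  filter_upwards [h0] with δ hδ
  have d1 : 0 < |δ| := abs_pos.2 hδ.1.ne'
  have d2 : |δ| < 1 := by
    rw [abs_of_pos hδ.1]
    exact hδ.2.trans_le (min_le_left _ _)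
  have c1 : Continuous fun t : ℝ => Wg τ δ t := Wg_c1 τ δ
  have c2 : Continuous fun t : ℝ => Wg τ (-δ) t := Wg_c1 τ (-δ)
  have l1 := hline δ d1 d2
  have l2 := hline (-δ) (by rwa [abs_neg]) (by rwa [abs_neg])
  have r1 : rgt H Kh τ v₀ δ = (2 * Real.pi : ℂ)⁻¹ *
      ∫ t : ℝ, H ((δ : ℂ) + t * I) * Wg τ δ t * k t := by
    unfold rgt
    congr 1
    refine integral_congr_ae (Eventually.of_forall fun t => ?_)
    simp only [hk, Wg]
    ring
  have r2 : rgt H Kh τ v₀ (-δ) = (2 * Real.pi : ℂ)⁻¹ *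
      ∫ t : ℝ, H (((-δ : ℝ) : ℂ) + t * I) * Wg τ (-δ) t * k t := by
    unfold rgt
    congr 1
    refine integral_congr_ae (Eventually.of_forall fun t => ?_)
    simp only [hk, Wg]
    ring
  rw [r1, r2, ← mul_sub]
  congr 1
  have i1 : Integrable fun t : ℝ => H ((δ : ℂ) + t * I) * Wg τ δ t * k t :=
    Continuous.integrable_of_hasCompactSupport ((l1.mul c1).mul hkc) hcs.mul_left
  have i2 : Integrable fun t : ℝ => H (((-δ : ℝ) : ℂ) + t * I) * Wg τ (-δ) t * k t :=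
    Continuous.integrable_of_hasCompactSupport ((l2.mul c2).mul hkc) hcs.mul_left
  have i3 : Integrable fun t : ℝ => (F ((δ : ℂ) + t * I) * Wg τ δ t -
      F (((-δ : ℝ) : ℂ) + t * I) * Wg τ (-δ) t) * k t := by
    refine Continuous.integrable_of_hasCompactSupport ?_ hcs.mul_left
    exact (((hFline δ d1 d2).mul c1).sub ((hFline (-δ) (by rwa [abs_neg])
        (by rwa [abs_neg])).mul c2)).mul hkc
  have i4 : ∀ γ ∈ S, Integrable fun t : ℝ => a γ * ((Wg τ δ t / ((δ : ℂ) + t * I - γ * I) -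
      Wg τ (-δ) t / (((-δ : ℝ) : ℂ) + t * I - γ * I)) * k t) := by
    intro γ _
    refine Integrable.const_mul ?_ _
    refine Continuous.integrable_of_hasCompactSupport ?_ hcs.mul_left
    refine ((c1.div (by fun_prop) fun t => hden δ γ t d1).sub
      (c2.div (by fun_prop) fun t => hden (-δ) γ t (by rwa [abs_neg]))).mul hkc
  have e5 : ∑ γ ∈ S, a γ * ∫ t : ℝ, (Wg τ δ t / ((δ : ℂ) + t * I - γ * I) -
      Wg τ (-δ) t / (((-δ : ℝ) : ℂ) + t * I - γ * I)) * k t =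
      ∫ t : ℝ, ∑ γ ∈ S, a γ * ((Wg τ δ t / ((δ : ℂ) + t * I - γ * I) -
      Wg τ (-δ) t / (((-δ : ℝ) : ℂ) + t * I - γ * I)) * k t) := by
    rw [integral_finsetSum _ i4]
    exact Finset.sum_congr rfl fun γ _ => (integral_const_mul _ _).symm
  rw [e5, ← integral_sub i1 i2, ← integral_add i3 (integrable_finsetSum _ i4)]
  refine integral_congr_ae (Eventually.of_forall fun t => ?_)
  simp only [hFd]
  have e6 : ∑ γ ∈ S, a γ * ((Wg τ δ t / ((δ : ℂ) + t * I - γ * I) -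
      Wg τ (-δ) t / (((-δ : ℝ) : ℂ) + t * I - γ * I)) * k t) =
      ((∑ γ ∈ S, a γ / ((δ : ℂ) + t * I - γ * I)) * Wg τ δ t -
      (∑ γ ∈ S, a γ / (((-δ : ℝ) : ℂ) + t * I - γ * I)) * Wg τ (-δ) t) * k t := by
    rw [Finset.sum_mul, Finset.sum_mul, ← Finset.sum_sub_distrib, Finset.sum_mul]
    refine Finset.sum_congr rfl fun γ _ => ?_
    ring
  rw [e6]
  ring

end Pool.Agent.H86.MF
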